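import Pool.Agent.Helper609_TT.LGP

/-!
# The local-to-global principle descends along conservative geometric functors
-/

namespace Pool.Agent.Results.MP_ca4e36_al.LocalToGlobalDescent

open CategoryTheory CategoryTheory.Limits CategoryTheory.Pretriangulated
open CategoryTheory.MonoidalCategory Pool.Agent.Helper609_TT

universe v u u'

/-- Let `Φ : T ⥤ S` be a geometric functor (strong monoidal, exact, coproduct preserving) between
rigidly-compactly generated tt-categories which is conservative, or more generally surjective on
Balmer spectra, and suppose that the spectrum of `T` is weakly noetherian. If `S` satisfies the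
local-to-global principle, then so does `T`. -/
theorem result {T : Type u} [Category.{v} T] [Preadditive T] [HasZeroObject T]
    [HasShift T ℤ] [∀ n : ℤ, (shiftFunctor T n).Additive] [Pretriangulated T]
    [MonoidalCategory T] [SymmetricCategory T] [RigidlyCompactlyGenerated T]
    {S : Type u'} [Category.{v} S] [Preadditive S] [HasZeroObject S]
    [HasShift S ℤ] [∀ n : ℤ, (shiftFunctor S n).Additive] [Pretriangulated S]
    [MonoidalCategory S] [SymmetricCategory S] [RigidlyCompactlyGenerated S]
    (Φ : T ⥤ S) [Φ.Monoidal] [Φ.CommShift ℤ] [Φ.IsTriangulated]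
    (hcoprod : ∀ J : Type v, PreservesColimitsOfShape (Discrete J) Φ)
    (hΦ : (∀ t : T, IsZero (Φ.obj t) → IsZero t) ∨
      ∀ P : Spc T, ∃ Q : Spc S, ∀ a : T, IsCpt a → (P.1 a ↔ Q.1 (Φ.obj a)))
    (hT : WeaklyNoetherian T) (hS : LocalToGlobal S) : LocalToGlobal T := by
  refine (scattered_and_localToGlobal Φ hcoprod ?_ hT hS).2
  rcases hΦ with h | h
  · exact Or.inl h
  · right
    intro P
    obtain ⟨Q, hQ⟩ := h P
    refine ⟨Q, Subtype.ext ?_⟩
    funext x
    apply propext
    exact ⟨fun hx => (hQ x hx.1).2 hx.2, fun hx => ⟨P.2.cpt hx, (hQ x (P.2.cpt hx)).1 hx⟩⟩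

end Pool.Agent.Results.MP_ca4e36_al.LocalToGlobalDescent
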