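import Pool.Agent.Helper609_TT.LGP

/-!
# The local-to-global principle holds exactly when the spectrum is scattered
-/

namespace Pool.Agent.Results.MP_ca4e36_al.LocalToGlobalScattered

open CategoryTheory CategoryTheory.Limits CategoryTheory.Pretriangulated
open CategoryTheory.MonoidalCategory Pool.Agent.Helper609_TT

universe v u

/-- A rigidly-compactly generated tt-category with weakly noetherian spectrum satisfies the
local-to-global principle if and only if its spectrum is scattered for the Hochster dual
topology. -/
theorem result {T : Type u} [Category.{v} T] [Preadditive T] [HasZeroObject T]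
    [HasShift T ℤ] [∀ n : ℤ, (shiftFunctor T n).Additive] [Pretriangulated T]
    [MonoidalCategory T] [SymmetricCategory T] [RigidlyCompactlyGenerated T]
    (hT : WeaklyNoetherian T) : LocalToGlobal T ↔ HochsterScattered T :=
  ⟨fun h => (scattered_and_localToGlobal (𝟭 T) (fun _ => inferInstance) (Or.inl fun _ h => h)
    hT h).1, fun h => localToGlobal_of_isolated hT (isolated_of_scattered h)⟩

end Pool.Agent.Results.MP_ca4e36_al.LocalToGlobalScattered
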