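import Pool.Agent.Helper609_TT.Min

/-!
# Stratification descends to locally affine tt-categories
-/

namespace Pool.Agent.Results.MP_ca4e36_al.LocallyAffineDescent

open CategoryTheory CategoryTheory.Limits CategoryTheory.Pretriangulated
open CategoryTheory.MonoidalCategory Pool.Agent.Helper609_TT

universe v u u'

/-- Let `Φ : T ⥤ S` be a conservative geometric functor (strong monoidal, exact, coproduct
preserving) between rigidly-compactly generated tt-categories, with `T` locally affine (such as
the derived category of quasi-coherent sheaves of a quasi-compact quasi-separated scheme) and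
with weakly noetherian spectrum. If `S` is stratified, then `T` is stratified. It is even enough
that `S` satisfies the local-to-global principle and the tensor product formula, both of which
hold when `S` is stratified. -/
theorem result {T : Type u} [Category.{v} T] [Preadditive T] [HasZeroObject T]
    [HasShift T ℤ] [∀ n : ℤ, (shiftFunctor T n).Additive] [Pretriangulated T] [IsTriangulated T]
    [MonoidalCategory T] [SymmetricCategory T] [RigidlyCompactlyGenerated T]
    {S : Type u'} [Category.{v} S] [Preadditive S] [HasZeroObject S]
    [HasShift S ℤ] [∀ n : ℤ, (shiftFunctor S n).Additive] [Pretriangulated S]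
    [MonoidalCategory S] [SymmetricCategory S] [RigidlyCompactlyGenerated S]
    (Φ : T ⥤ S) [Φ.Monoidal] [Φ.CommShift ℤ] [Φ.IsTriangulated]
    (hcoprod : ∀ J : Type v, PreservesColimitsOfShape (Discrete J) Φ)
    (hcons : ∀ t : T, IsZero (Φ.obj t) → IsZero t)
    (hT : WeaklyNoetherian T) (haff : ∀ P : Spc T, LocallyAffineAt P)
    (hS : Stratified S ∨ (LocalToGlobal S ∧ TensorProductFormula S)) : Stratified T := by
  rcases hS with hS | hS
  · exact stratified_of_locallyAffine hcoprod hcons hT haff hS.1
      (tensorProductFormula_of_minimality hS.2)
  · exact stratified_of_locallyAffine hcoprod hcons hT haff hS.1 hS.2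

end Pool.Agent.Results.MP_ca4e36_al.LocallyAffineDescent
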